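import Pool.Agent.H18Thick.Euler

set_option autoImplicit false

namespace Pool.Agent.H18Thick

open Function Rotation

variable {V : Type*} {G : SimpleGraph V}

/-- A triangulated rotation system. -/
def TriRot (G : SimpleGraph V) : Prop :=
  ∃ R : Rotation G, ∀ u v, G.Adj u v → R.nxt (R.nxt v u) v = u

lemma closed_of_connected (hG : G.Connected) (S : Set V) {u : V} (hu : u ∈ S)
    (hS : ∀ x ∈ S, ∀ y, G.Adj x y → y ∈ S) (x : V) : x ∈ S := by
  obtain ⟨p⟩ := hG.preconnected u x
  induction p with
  | nil => exact hu
  | cons h p ih => exact ih (hS _ hu _ h)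

lemma fixed_unique (R : Rotation G) {v w : V} (hw : G.Adj v w) (hf : R.nxt v w = w) {x : V}
    (hx : G.Adj v x) : x = w := by
  obtain ⟨k, hk⟩ := R.cyclic v w x hw hx
  rw [← hk]
  exact (Function.IsFixedPt.iterate hf k)

/-- Each face of a connected graph with at least three vertices has at least three darts. -/
lemma three_le_face [Finite V] (hG : G.Connected) (h3 : 3 ≤ Nat.card V) (R : Rotation G)
    {d : V × V} (hd : d ∈ darts G) :
    3 ≤ ({e | e ∈ darts G ∧ R.face e = R.face d} : Set (V × V)).ncard := by
  obtain ⟨u, v⟩ := d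
  have huv : G.Adj u v := hd
  set w := R.nxt v u with hw
  set x := R.nxt w v with hx
  have hvw : G.Adj v w := R.adj_nxt v u huv.symm
  have hwx : G.Adj w x := R.adj_nxt w v hvw.symm
  have s1 : R.faceStep (u, v) = (v, w) := rfl
  have s2 : R.faceStep (v, w) = (w, x) := rfl
  have n1 : (u, v) ≠ (v, w) := by
    intro h; rw [Prod.mk.injEq] at h; exact huv.ne h.1
  have n2 : (v, w) ≠ (w, x) := by
    intro h; rw [Prod.mk.injEq] at h; exact hvw.ne h.1
  have n3 : (u, v) ≠ (w, x) := by
    intro h
    rw [Prod.mk.injEq] at h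
    obtain ⟨h1, h2⟩ := h
    have f1 : R.nxt v u = u := by rw [← hw]; exact h1.symm
    have f2 : R.nxt u v = v := by
      rw [h1]; exact h2.symm ▸ hx.symm
    have hall : ∀ y, y ∈ ({u, v} : Set V) := by
      intro y
      refine closed_of_connected hG {u, v} (u := u) (by simp) ?_ y
      intro z hz z' hzz'
      rcases hz with rfl | hz
      · right; exact fixed_unique R huv f2 hzz'
      · rw [Set.mem_singleton_iff] at hz
        subst hz
        left; exact fixed_unique R huv.symm f1 hzz'
    have hc : Nat.card V ≤ 2 := by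
      have e : (Set.univ : Set V) ⊆ {u, v} := fun y _ => hall y
      have := Set.ncard_le_ncard e
      rw [Set.ncard_univ] at this
      have h2 := Set.ncard_insert_le u {v}
      rw [Set.ncard_singleton] at h2
      exact this.trans h2
    omega
  have hsub : ({(u, v), (v, w), (w, x)} : Set (V × V)) ⊆
      {e | e ∈ darts G ∧ R.face e = R.face (u, v)} := by
    rintro e (rfl | rfl | he)
    · exact ⟨hd, rfl⟩
    · exact ⟨hvw, by rw [← s1]; exact R.face_step hd⟩
    · rw [Set.mem_singleton_iff] at he
      subst he
      refine ⟨hwx, ?_⟩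
      rw [← s2, R.face_step (show (v, w) ∈ darts G from hvw), ← s1]
      exact R.face_step hd
  have h3' : ({(u, v), (v, w), (w, x)} : Set (V × V)).ncard = 3 := by
    rw [Set.ncard_eq_three]
    exact ⟨_, _, _, n1, n3, n2, rfl⟩
  rw [← h3']
  exact Set.ncard_le_ncard hsub (Set.toFinite _)

/-- Euler's bound: a planar graph on `n ≥ 3` vertices has at most `3 n - 6` edges. -/
theorem IsPlanar.edge_bound [Finite V] {H : SimpleGraph V} (hH : IsPlanar H)
    (h3 : 3 ≤ Nat.card V) : H.edgeSet.ncard + 6 ≤ 3 * Nat.card V := by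
  obtain ⟨G, hle, hG, R, hE⟩ := hH
  have h1 := R.three_faces_le (fun d hd => three_le_face hG h3 R hd)
  have h2 : H.edgeSet.ncard ≤ G.edgeSet.ncard :=
    Set.ncard_le_ncard (SimpleGraph.edgeSet_mono hle) (Set.toFinite _)
  rcases Nat.eq_zero_or_pos R.faces.ncard with h0 | h0
  · rw [h0] at hE
    have hF : R.faces = ∅ := by
      rwa [Set.ncard_eq_zero (Set.toFinite _)] at h0
    have hno : ∀ u v, ¬ G.Adj u v := by
      intro u v huv
      have : R.face (u, v) ∈ R.faces := ⟨u, v, huv, rfl⟩
      rw [hF] at this
      exact this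
    have hc : Nat.card V ≤ 1 := by
      obtain ⟨u⟩ := hG.nonempty
      have hall : ∀ y, y ∈ ({u} : Set V) := fun y =>
        closed_of_connected hG {u} (u := u) rfl (fun x _ y h => absurd h (hno x y)) y
      have e : (Set.univ : Set V) ⊆ {u} := fun y _ => hall y
      have := Set.ncard_le_ncard e
      rw [Set.ncard_univ, Set.ncard_singleton] at this
      exact this
    omega
  · rw [max_eq_right h0] at hE
    omega

/-- A connected graph with a triangulated rotation system and `3 n - 6` edges is planar. -/
theorem isPlanar_of_triRot [Finite V] (hG : G.Connected) (hT : TriRot G)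
    (hE : G.edgeSet.ncard + 6 = 3 * Nat.card V) (h0 : 0 < G.edgeSet.ncard) : IsPlanar G := by
  obtain ⟨R, hR⟩ := hT
  have h3 : 3 * R.faces.ncard = 2 * G.edgeSet.ncard := by
    apply R.three_faces_eq
    rintro ⟨u, v⟩ hd
    have huv : G.Adj u v := hd
    set w := R.nxt v u with hw
    have hvw : G.Adj v w := R.adj_nxt v u huv.symm
    have e1 : R.nxt w v = u := hR u v huv
    have hwu : G.Adj w u := by
      rw [← e1]; exact R.adj_nxt w v hvw.symm
    have e2 : R.nxt u w = v := by
      have := hR v w hvw
      rwa [e1] at this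
    have s1 : R.faceStep (u, v) = (v, w) := rfl
    have s2 : R.faceStep (v, w) = (w, u) := by rw [faceStep]; simp only [e1]
    have s3 : R.faceStep (w, u) = (u, v) := by rw [faceStep]; simp only [e2]
    have key : {e | e ∈ darts G ∧ R.face e = R.face (u, v)} =
        ({(u, v), (v, w), (w, u)} : Set (V × V)) := by
      ext e
      constructor
      · rintro ⟨_, he⟩
        rw [R.face_eq_iff hd] at he
        obtain ⟨k, rfl⟩ := he
        have : ∀ k : ℕ, R.faceStep^[k] (u, v) ∈ ({(u, v), (v, w), (w, u)} : Set (V × V)) := by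
          intro k
          induction k with
          | zero => simp
          | succ k ih =>
            rw [iterate_succ_apply']
            rcases ih with h | h | h
            · rw [h, s1]; simp
            · rw [h, s2]; simp
            · rw [Set.mem_singleton_iff] at h
              rw [h, s3]; simp
        exact this k
      · rintro (rfl | rfl | he)
        · exact ⟨hd, rfl⟩
        · exact ⟨hvw, by rw [← s1]; exact R.face_step hd⟩
        · rw [Set.mem_singleton_iff] at he
          subst he
          refine ⟨hwu, ?_⟩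
          rw [← s2, R.face_step (show (v, w) ∈ darts G from hvw), ← s1]
          exact R.face_step hd
    rw [key, Set.ncard_eq_three]
    refine ⟨_, _, _, ?_, ?_, ?_, rfl⟩
    · intro h; rw [Prod.mk.injEq] at h; exact huv.ne h.1
    · intro h; rw [Prod.mk.injEq] at h; exact hwu.ne h.1.symm
    · intro h; rw [Prod.mk.injEq] at h; exact hvw.ne h.1
  refine ⟨G, le_rfl, hG, R, ?_⟩
  have : 1 ≤ R.faces.ncard := by omega
  rw [max_eq_right this]
  omega

/-- transport of triangulated rotation systems -/
lemma TriRot.of_iso {W : Type*} {G' : SimpleGraph W} (e : G ≃g G') (h : TriRot G) :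
    TriRot G' := by
  obtain ⟨R, hR⟩ := h
  refine ⟨⟨fun v w => e (R.nxt (e.symm v) (e.symm w)), ?_, ?_⟩, ?_⟩
  · intro v w h
    have h1 : G.Adj (e.symm v) (e.symm w) := (e.symm.map_adj_iff).2 h
    have h2 := R.adj_nxt _ _ h1
    have h3 := (e.map_adj_iff).2 h2
    rwa [e.apply_symm_apply] at h3
  · intro v w w' h h'
    have h1 : G.Adj (e.symm v) (e.symm w) := (e.symm.map_adj_iff).2 h
    have h2 : G.Adj (e.symm v) (e.symm w') := (e.symm.map_adj_iff).2 h'
    obtain ⟨k, hk⟩ := R.cyclic _ _ _ h1 h2
    refine ⟨k, ?_⟩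
    have : ∀ k : ℕ, (fun w => e (R.nxt (e.symm v) (e.symm w)))^[k] w =
        e ((R.nxt (e.symm v))^[k] (e.symm w)) := by
      intro k
      induction k with
      | zero => simp
      | succ k ih => rw [iterate_succ_apply', iterate_succ_apply', ih]; simp
    rw [this, hk, e.apply_symm_apply]
  · intro u v h
    have h1 : G.Adj (e.symm u) (e.symm v) := (e.symm.map_adj_iff).2 h
    have h2 := hR _ _ h1
    simp only [e.symm_apply_apply]
    rw [h2, e.apply_symm_apply]

end Pool.Agent.H18Thick
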