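import Pool.Agent.H18Thick.Decomp

set_option autoImplicit false

namespace Pool.Agent.H18Thick

open Function

variable {N : ℕ}

lemma nbr_GG (t : ℕ) (v : W N) : (GG t N).neighborSet v =
    ((fun k' : Fin (N + 1) => ((v.1 - 1, (if v.2.2.val < t then v.2.1 else !v.2.1), k') : W N)) ''
      Set.univ) ∪
    (((fun k' : Fin (N + 1) => ((v.1, v.2.1, k') : W N)) '' {v.2.2}ᶜ) ∪
    ((fun k' : Fin (N + 1) => ((v.1 + 1, (if k'.val < t then v.2.1 else !v.2.1), k') : W N)) ''
      Set.univ)) := by
  obtain ⟨Y, s, k⟩ := v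
  ext ⟨Y', s', k'⟩
  simp only [SimpleGraph.mem_neighborSet, Set.mem_union, Set.mem_image, Set.mem_univ, true_and,
    Prod.mk.injEq, Set.mem_compl_iff, Set.mem_singleton_iff]
  constructor
  · rintro (⟨h1, h2, h3⟩ | ⟨h1, h2⟩ | ⟨h1, h2⟩)
    · dsimp only at h1 h2 h3
      right; left
      exact ⟨k', fun h => h3 h.symm, h1.symm, h2.symm, rfl⟩
    · dsimp only at h1 h2
      left
      exact ⟨k', h1.symm, h2.symm, rfl⟩
    · dsimp only at h1 h2
      right; right
      refine ⟨k', ((f8 Y' Y).1 h1).symm, ?_, rfl⟩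
      split_ifs at h2 ⊢
      · exact h2
      · rw [h2, Bool.not_not]
  · rintro (⟨_, h1, h2, rfl⟩ | ⟨_, h0, h1, h2, rfl⟩ | ⟨_, h1, h2, rfl⟩)
    · right; left
      exact ⟨h1.symm, h2.symm⟩
    · left
      exact ⟨h1.symm, h2.symm, fun h => h0 h.symm⟩
    · right; right
      refine ⟨(f8 Y' Y).2 h1.symm, ?_⟩
      dsimp only
      split_ifs at h2 ⊢
      · exact h2
      · rw [← h2, Bool.not_not]

lemma deg_GG {t : ℕ} (hN : N + 1 = 2 * t) (v : W N) :
    ((GG t N).neighborSet v).ncard = 6 * t - 1 := by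
  rw [nbr_GG]
  have i1 : Injective (fun k' : Fin (N + 1) =>
      ((v.1 - 1, (if v.2.2.val < t then v.2.1 else !v.2.1), k') : W N)) := by
    intro a b h
    simp only [Prod.mk.injEq] at h
    exact h.2.2
  have i2 : Injective (fun k' : Fin (N + 1) => ((v.1, v.2.1, k') : W N)) := by
    intro a b h
    simp only [Prod.mk.injEq] at h
    exact h.2.2
  have i3 : Injective (fun k' : Fin (N + 1) =>
      ((v.1 + 1, (if k'.val < t then v.2.1 else !v.2.1), k') : W N)) := by
    intro a b h
    simp only [Prod.mk.injEq] at h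
    exact h.2.2
  rw [Set.ncard_union_eq, Set.ncard_union_eq, Set.ncard_image_of_injective _ i1,
    Set.ncard_image_of_injective _ i2, Set.ncard_image_of_injective _ i3, Set.ncard_univ,
    Nat.card_eq_fintype_card, Fintype.card_fin, Set.ncard_compl, Set.ncard_singleton,
    Nat.card_eq_fintype_card, Fintype.card_fin]
  · omega
  · rw [Set.disjoint_left]
    rintro _ ⟨a, _, rfl⟩ ⟨b, _, h⟩
    simp only [Prod.mk.injEq] at h
    exact f1 _ h.1
  · rw [Set.disjoint_left]
    rintro _ ⟨a, _, rfl⟩ (⟨b, _, h⟩ | ⟨b, _, h⟩)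
    · simp only [Prod.mk.injEq] at h
      exact f2 _ h.1.symm
    · simp only [Prod.mk.injEq] at h
      exact f3 _ h.1.symm

lemma card_W : Nat.card (W N) = 6 * (N + 1) := by
  rw [Nat.card_eq_fintype_card]
  simp [W]
  ring

/-- handshake lemma for regular graphs, with `ncard` -/
lemma two_edges {V : Type*} [Finite V] (G : SimpleGraph V) (d : ℕ)
    (h : ∀ v, (G.neighborSet v).ncard = d) : 2 * G.edgeSet.ncard = Nat.card V * d := by
  classical
  have := Fintype.ofFinite V
  have h1 := G.sum_degrees_eq_twice_card_edges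
  have h2 : ∀ v, G.degree v = d := by
    intro v
    rw [← h v, ← SimpleGraph.card_neighborSet_eq_degree, ← Nat.card_coe_set_eq,
      Nat.card_eq_fintype_card]
  have h3 : G.edgeFinset.card = G.edgeSet.ncard := by
    rw [← SimpleGraph.coe_edgeFinset, Set.ncard_coe_finset]
  rw [Finset.sum_congr rfl (fun v _ => h2 v), Finset.sum_const, Finset.card_univ, h3,
    smul_eq_mul, ← Nat.card_eq_fintype_card] at h1
  exact h1.symm

/-- edge sets of a decomposition given by adjacency conditions -/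
lemma iUnion_edgeSet {V : Type*} {k : ℕ} (G : SimpleGraph V) (H : Fin k → SimpleGraph V)
    (h : ∀ v w, G.Adj v w ↔ ∃ i, (H i).Adj v w) : (⋃ i, (H i).edgeSet) = G.edgeSet := by
  ext e
  induction e with
  | _ v w =>
    simp only [Set.mem_iUnion, SimpleGraph.mem_edgeSet]
    exact (h v w).symm

lemma disjoint_edgeSet {V : Type*} (G H : SimpleGraph V)
    (h : ∀ v w, G.Adj v w → H.Adj v w → False) : Disjoint G.edgeSet H.edgeSet := by
  rw [Set.disjoint_left]
  intro e
  induction e with
  | _ v w =>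
    simp only [SimpleGraph.mem_edgeSet]
    exact fun a b => h v w a b

lemma sum_ncard {V : Type*} [Finite V] {k : ℕ} (G : SimpleGraph V) (H : Fin k → SimpleGraph V)
    (hd : ∀ i j, i ≠ j → Disjoint (H i).edgeSet (H j).edgeSet)
    (hu : (⋃ i, (H i).edgeSet) = G.edgeSet) :
    G.edgeSet.ncard = ∑ i, (H i).edgeSet.ncard := by
  classical
  have := Fintype.ofFinite V
  have e : ∀ i, (H i).edgeSet.ncard = (H i).edgeSet.toFinset.card := fun i => by
    rw [Set.ncard_eq_toFinset_card']
  rw [Finset.sum_congr rfl (fun i _ => e i), ← Finset.card_biUnion]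
  · rw [← hu, ← Set.ncard_coe_finset]
    congr 1
    simp
  · intro i _ j _ hij
    simp only [Function.onFun]
    rw [Set.disjoint_toFinset]
    exact hd i j hij

lemma iso_ncard {V V' : Type*} {G : SimpleGraph V} {G' : SimpleGraph V'} (e : G ≃g G') :
    G.edgeSet.ncard = G'.edgeSet.ncard := by
  rw [← Nat.card_coe_set_eq, ← Nat.card_coe_set_eq]
  exact Nat.card_congr e.mapEdgeSet

/-- number of edges of the triangulation -/
lemma edges_TG {t : ℕ} (ht : 1 ≤ t) (hN : N + 1 = 2 * t) :
    (TG N).edgeSet.ncard + 6 = 36 * t := by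
  have h1 := two_edges (GG t N) _ (deg_GG hN)
  have h2 := sum_ncard (GG t N) (fun j : Fin t => TJ t N j)
    (fun i j hij => disjoint_edgeSet _ _ (fun v w a b => hij (tj_disj hN v w i j a b)))
    (iUnion_edgeSet _ _ (gg_adj_iff hN))
  have h3 : ∀ j : Fin t, (TJ t N j).edgeSet.ncard = (TG N).edgeSet.ncard :=
    fun j => (iso_ncard (isoTJ hN j)).symm
  rw [Finset.sum_congr rfl (fun j _ => h3 j), Finset.sum_const, Finset.card_univ,
    Fintype.card_fin, smul_eq_mul] at h2
  rw [h2, card_W, hN] at h1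
  obtain ⟨t, rfl⟩ : ∃ u, t = u + 1 := ⟨t - 1, by omega⟩
  have h4 : (TG N).edgeSet.ncard = 6 * (6 * (t + 1) - 1) := by
    have : (2 * (t + 1)) * (TG N).edgeSet.ncard = (2 * (t + 1)) * (6 * (6 * (t + 1) - 1)) := by
      linarith
    exact Nat.eq_of_mul_eq_mul_left (by omega) this
  omega

/-- The triangulation, transported to any type, is planar. -/
lemma planar_of_iso_TG {t : ℕ} (ht : 1 ≤ t) (hN : N + 1 = 2 * t) {V : Type*} [Finite V]
    {G : SimpleGraph V} (e : TG N ≃g G) : IsPlanar G := by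
  have hE := edges_TG ht hN
  rw [iso_ncard e] at hE
  have hc : Nat.card V = 12 * t := by
    rw [← Nat.card_congr e.toEquiv, card_W]; omega
  refine isPlanar_of_triRot (e.connected_iff.1 connected_TG)
    ((triRot_TG (by omega)).of_iso e) ?_ ?_
  · omega
  · omega

end Pool.Agent.H18Thick
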