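import Pool.Agent.H18Thick.TubeRot

set_option autoImplicit false

/-!
The `(6t-1)`-regular graph on `12 t` vertices and its decomposition into `t` triangulations.
-/

namespace Pool.Agent.H18Thick

open Function

variable {N : ℕ}

def HubG (t : ℕ) (v w : W N) : Prop :=
  w.1 = v.1 - 1 ∧ w.2.1 = (if v.2.2.val < t then v.2.1 else !v.2.1)

/-- blow-up of the cuboctahedron together with six complete graphs -/
def GG (t N : ℕ) : SimpleGraph (W N) where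
  Adj v w := (w.1 = v.1 ∧ w.2.1 = v.2.1 ∧ v.2.2 ≠ w.2.2) ∨ HubG t v w ∨ HubG t w v
  symm := ⟨by
    rintro v w (h | h | h)
    · left; exact ⟨h.1.symm, h.2.1.symm, h.2.2.symm⟩
    · right; right; exact h
    · right; left; exact h⟩
  loopless := ⟨by
    rintro v (h | h | h)
    · exact h.2.2 rfl
    · exact f2 _ h.1.symm
    · exact f2 _ h.1.symm⟩

def HubJ (t j : ℕ) (v w : W N) : Prop :=
  w.1 = v.1 - 1 ∧ ((v.2.2.val = j ∧ w.2.1 = v.2.1) ∨ (v.2.2.val = j + t ∧ w.2.1 = !v.2.1))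

/-- the zigzag condition on sums -/
def SC (t j S : ℕ) : Prop := S = 2 * j ∨ S = 2 * j + 1 ∨ S = 2 * j + 2 * t ∨ S = 2 * j + 1 + 2 * t

def TJ (t N j : ℕ) : SimpleGraph (W N) where
  Adj v w := (w.1 = v.1 ∧ w.2.1 = v.2.1 ∧ v.2.2 ≠ w.2.2 ∧ SC t j (v.2.2.val + w.2.2.val)) ∨
    HubJ t j v w ∨ HubJ t j w v
  symm := ⟨by
    rintro v w (h | h | h)
    · left; exact ⟨h.1.symm, h.2.1.symm, h.2.2.1.symm, by rw [add_comm]; exact h.2.2.2⟩
    · right; right; exact h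
    · right; left; exact h⟩
  loopless := ⟨by
    rintro v (h | h | h)
    · exact h.2.2.1 rfl
    · exact f2 _ h.1.symm
    · exact f2 _ h.1.symm⟩

/-- The parts cover. -/
lemma gg_adj_iff {t : ℕ} (hN : N + 1 = 2 * t) (v w : W N) :
    (GG t N).Adj v w ↔ ∃ j : Fin t, (TJ t N j).Adj v w := by
  have hv := v.2.2.2
  have hw := w.2.2.2
  constructor
  · rintro (⟨h1, h2, h3⟩ | ⟨h1, h2⟩ | ⟨h1, h2⟩)
    · have h4 : v.2.2.val ≠ w.2.2.val := fun h => h3 (Fin.ext h)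
      by_cases hc : v.2.2.val + w.2.2.val < 2 * t
      · refine ⟨⟨(v.2.2.val + w.2.2.val) / 2, by omega⟩, Or.inl ⟨h1, h2, h3, ?_⟩⟩
        simp only [SC]; omega
      · refine ⟨⟨(v.2.2.val + w.2.2.val - 2 * t) / 2, by omega⟩, Or.inl ⟨h1, h2, h3, ?_⟩⟩
        simp only [SC]; omega
    · by_cases hc : v.2.2.val < t
      · rw [if_pos hc] at h2
        exact ⟨⟨v.2.2.val, hc⟩, Or.inr (Or.inl ⟨h1, Or.inl ⟨rfl, h2⟩⟩)⟩
      · rw [if_neg hc] at h2
        refine ⟨⟨v.2.2.val - t, by omega⟩, Or.inr (Or.inl ⟨h1, Or.inr ⟨by simp only; omega, h2⟩⟩)⟩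
    · by_cases hc : w.2.2.val < t
      · rw [if_pos hc] at h2
        exact ⟨⟨w.2.2.val, hc⟩, Or.inr (Or.inr ⟨h1, Or.inl ⟨rfl, h2⟩⟩)⟩
      · rw [if_neg hc] at h2
        refine ⟨⟨w.2.2.val - t, by omega⟩, Or.inr (Or.inr ⟨h1, Or.inr ⟨by simp only; omega, h2⟩⟩)⟩
  · rintro ⟨⟨j, hj⟩, (⟨h1, h2, h3, _⟩ | ⟨h1, h2⟩ | ⟨h1, h2⟩)⟩
    · exact Or.inl ⟨h1, h2, h3⟩
    · refine Or.inr (Or.inl ⟨h1, ?_⟩)
      dsimp only at h2
      rcases h2 with ⟨h2, h3⟩ | ⟨h2, h3⟩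
      · rw [if_pos (by omega), h3]
      · rw [if_neg (by omega), h3]
    · refine Or.inr (Or.inr ⟨h1, ?_⟩)
      dsimp only at h2
      rcases h2 with ⟨h2, h3⟩ | ⟨h2, h3⟩
      · rw [if_pos (by omega), h3]
      · rw [if_neg (by omega), h3]

lemma f11 : ∀ Y Y' : Fin 3, Y' = Y - 1 → Y = Y' - 1 → False := by decide
lemma f12 : ∀ Y Y' : Fin 3, Y' = Y → Y' = Y - 1 → False := by decide
lemma f13 : ∀ Y Y' : Fin 3, Y' = Y → Y = Y' - 1 → False := by decide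

/-- The parts are disjoint. -/
lemma tj_disj {t : ℕ} (hN : N + 1 = 2 * t) (v w : W N) (i j : Fin t)
    (h : (TJ t N i).Adj v w) (h' : (TJ t N j).Adj v w) : i = j := by
  obtain ⟨i, hi⟩ := i
  obtain ⟨j, hj⟩ := j
  have hv := v.2.2.2
  have hw := w.2.2.2
  rcases h with ⟨h1, h2, h3, h4⟩ | ⟨h1, h2⟩ | ⟨h1, h2⟩ <;>
    rcases h' with ⟨k1, k2, k3, k4⟩ | ⟨k1, k2⟩ | ⟨k1, k2⟩
  · simp only [SC] at h4 k4
    ext; simp only; omega
  · exact (f12 _ _ h1 k1).elim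
  · exact (f13 _ _ h1 k1).elim
  · exact (f12 _ _ k1 h1).elim
  · dsimp only at h2 k2
    ext; dsimp only
    rcases h2 with ⟨h2, _⟩ | ⟨h2, _⟩ <;> rcases k2 with ⟨k2, _⟩ | ⟨k2, _⟩ <;> omega
  · exact (f11 _ _ h1 k1).elim
  · exact (f13 _ _ k1 h1).elim
  · exact (f11 _ _ k1 h1).elim
  · dsimp only at h2 k2
    ext; dsimp only
    rcases h2 with ⟨h2, _⟩ | ⟨h2, _⟩ <;> rcases k2 with ⟨k2, _⟩ | ⟨k2, _⟩ <;> omega

/-- zigzag (Walecki) map -/
def pf (t j k : ℕ) : ℕ :=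
  if k % 2 = 0 then (if k / 2 ≤ j then j - k / 2 else j + 2 * t - k / 2)
  else (if j + (k + 1) / 2 < 2 * t then j + (k + 1) / 2 else j + (k + 1) / 2 - 2 * t)

lemma pf_lt {t j k : ℕ} (hj : j < t) (hk : k < 2 * t) : pf t j k < 2 * t := by
  unfold pf; split_ifs <;> omega

lemma pf_inj {t j k k' : ℕ} (hj : j < t) (hk : k < 2 * t) (hk' : k' < 2 * t)
    (h : pf t j k = pf t j k') : k = k' := by
  unfold pf at h; split_ifs at h <;> omega

lemma pf_zero {t j k : ℕ} (hj : j < t) (hk : k < 2 * t) : pf t j k = j ↔ k = 0 := by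
  unfold pf; split_ifs <;> omega

lemma pf_last {t j k : ℕ} (hj : j < t) (hk : k < 2 * t) : pf t j k = j + t ↔ k + 1 = 2 * t := by
  unfold pf; split_ifs <;> omega

lemma pf_step {t j k k' : ℕ} (hj : j < t) (hk : k < 2 * t) (hk' : k' < 2 * t) :
    (k ≠ k' ∧ SC t j (pf t j k + pf t j k')) ↔ (k' = k + 1 ∨ k = k' + 1) := by
  unfold pf SC; split_ifs <;> omega

/-- the zigzag permutation of `Fin (N+1)` -/
noncomputable def pe {t : ℕ} (hN : N + 1 = 2 * t) (j : Fin t) : Fin (N + 1) ≃ Fin (N + 1) :=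
  Equiv.ofBijective (fun k => ⟨pf t j k, by
    have := pf_lt (k := k.val) j.2 (by omega); omega⟩) (by
    rw [← Finite.injective_iff_bijective]
    intro k k' h
    ext
    exact pf_inj j.2 (by omega) (by omega) (by simpa using h))

lemma pe_val {t : ℕ} (hN : N + 1 = 2 * t) (j : Fin t) (k : Fin (N + 1)) :
    (pe hN j k).val = pf t j k := rfl

/-- Each part is isomorphic to the triangulation. -/
noncomputable def isoTJ {t : ℕ} (hN : N + 1 = 2 * t) (j : Fin t) : TG N ≃g TJ t N j where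
  toEquiv := Equiv.prodCongr (Equiv.refl _) (Equiv.prodCongr (Equiv.refl _) (pe hN j))
  map_rel_iff' := by
    rintro ⟨Y, s, k⟩ ⟨Y', s', k'⟩
    have hk := k.2
    have hk' := k'.2
    have e1 := pf_zero (k := k.val) j.2 (by omega)
    have e2 := pf_last (k := k.val) j.2 (by omega)
    have e3 := pf_zero (k := k'.val) j.2 (by omega)
    have e4 := pf_last (k := k'.val) j.2 (by omega)
    have e5 := pf_step (k := k.val) (k' := k'.val) j.2 (by omega) (by omega)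
    have e6 : (pe hN j k ≠ pe hN j k') ↔ k.val ≠ k'.val := by
      rw [(pe hN j).injective.ne_iff, Fin.ne_iff_vne]
    have e7 : ∀ m : ℕ, m + 1 = 2 * t ↔ m = N := fun m => by omega
    simp only [TJ, TG, HubJ, HubT, PathT, Equiv.prodCongr_apply, Prod.map, Equiv.refl_apply,
      pe_val, e1, e2, e3, e4, e6, e7]
    have e8 : (k.val ≠ k'.val ∧ SC t j (pf t j k + pf t j k')) ↔
      (k'.val = k.val + 1 ∨ k.val = k'.val + 1) := e5
    rw [← e8]

end Pool.Agent.H18Thick
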