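import Mathlib

set_option autoImplicit false

/-!
Planarity of finite simple graphs via rotation systems (combinatorial maps), and thickness.
-/

namespace Pool.Agent.H18Thick

/-- A rotation system on a simple graph `G`: for every vertex `v`, the map `nxt v` sends each
neighbour `w` of `v` to the next neighbour in a cyclic order of all the neighbours of `v`. -/
structure Rotation {V : Type*} (G : SimpleGraph V) where
  nxt : V → V → V
  adj_nxt : ∀ v w, G.Adj v w → G.Adj v (nxt v w)
  cyclic : ∀ v w w', G.Adj v w → G.Adj v w' → ∃ k : ℕ, (nxt v)^[k] w = w'

namespace Rotation

variable {V : Type*} {G : SimpleGraph V}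

/-- Face tracing: having traversed the directed edge `(u, v)`, continue with the directed edge
from `v` to the neighbour of `v` following `u` in the rotation at `v`. -/
def faceStep (R : Rotation G) (d : V × V) : V × V := (d.2, R.nxt d.2 d.1)

/-- The face through a directed edge, as the set of directed edges met by face tracing. -/
def face (R : Rotation G) (d : V × V) : Set (V × V) := {e | ∃ k : ℕ, R.faceStep^[k] d = e}

/-- The set of all faces of the rotation system. -/
def faces (R : Rotation G) : Set (Set (V × V)) := {F | ∃ u v, G.Adj u v ∧ F = R.face (u, v)}

end Rotation

/-- A finite simple graph is planar if it is a spanning subgraph of a connected simple graph which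
has a rotation system satisfying Euler's formula `V + F = E + 2` of the sphere.  (The number of
faces is `max 1 _` because the embedding of the graph with one vertex has one face.) -/
def IsPlanar {V : Type*} (H : SimpleGraph V) : Prop :=
  ∃ G : SimpleGraph V, H ≤ G ∧ G.Connected ∧
    ∃ R : Rotation G, Nat.card V + max 1 R.faces.ncard = G.edgeSet.ncard + 2

/-- The thickness of `G`: the least `k` such that the edge set of `G` can be partitioned into `k`
sets each of which is the edge set of a planar spanning subgraph. -/
noncomputable def thickness {V : Type*} (G : SimpleGraph V) : ℕ :=
  sInf {k : ℕ | ∃ H : Fin k → SimpleGraph V, (∀ i, IsPlanar (H i)) ∧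
    (∀ i j, i ≠ j → Disjoint (H i).edgeSet (H j).edgeSet) ∧ (⋃ i, (H i).edgeSet) = G.edgeSet}

end Pool.Agent.H18Thick
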