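import Pool.Agent.H18Thick.Defs

set_option autoImplicit false

namespace Pool.Agent.H18Thick

open Function

variable {V : Type*} {G : SimpleGraph V}

namespace Rotation

/-- the set of directed edges -/
def darts (G : SimpleGraph V) : Set (V × V) := {d | G.Adj d.1 d.2}

lemma mem_periodic (R : Rotation G) {v w : V} (h : G.Adj v w) : w ∈ periodicPts (R.nxt v) := by
  obtain ⟨k, hk⟩ := R.cyclic v (R.nxt v w) w (R.adj_nxt v w h) h
  exact ⟨k + 1, Nat.succ_pos k, hk⟩

lemma nxt_inj (R : Rotation G) {v w w' : V} (h : G.Adj v w) (h' : G.Adj v w')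
    (e : R.nxt v w = R.nxt v w') : w = w' :=
  (bijOn_periodicPts (R.nxt v)).injOn (R.mem_periodic h) (R.mem_periodic h') e

lemma mapsTo_faceStep (R : Rotation G) : Set.MapsTo R.faceStep (darts G) (darts G) := by
  intro d hd
  exact R.adj_nxt d.2 d.1 (G.adj_symm hd)

lemma injOn_faceStep (R : Rotation G) : Set.InjOn R.faceStep (darts G) := by
  rintro ⟨u, v⟩ hd ⟨u', v'⟩ hd' e
  simp only [faceStep, Prod.mk.injEq] at e
  obtain ⟨rfl, e2⟩ := e
  have h : u = u' := R.nxt_inj (G.adj_symm hd) (G.adj_symm hd') e2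
  rw [h]

lemma iterate_mem (R : Rotation G) {d : V × V} (hd : d ∈ darts G) (k : ℕ) :
    R.faceStep^[k] d ∈ darts G := R.mapsTo_faceStep.iterate k hd

lemma exists_return [Finite V] (R : Rotation G) {d : V × V} (hd : d ∈ darts G) :
    ∃ k : ℕ, 0 < k ∧ R.faceStep^[k] d = d := by
  let f : darts G → darts G := R.mapsTo_faceStep.restrict
  have hinj : Injective f := R.mapsTo_faceStep.restrict_inj.2 R.injOn_faceStep
  have := hinj.mem_periodicPts ⟨d, hd⟩
  obtain ⟨k, hk, hk'⟩ := this
  refine ⟨k, hk, ?_⟩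
  have h1 : f^[k] ⟨d, hd⟩ = ⟨d, hd⟩ := hk'
  have h2 : ((f^[k] ⟨d, hd⟩ : darts G) : V × V) = R.faceStep^[k] d := by
    have : ∀ n, ((f^[n] ⟨d, hd⟩ : darts G) : V × V) = R.faceStep^[n] d := by
      intro n
      induction n with
      | zero => rfl
      | succ n ih => rw [iterate_succ_apply', iterate_succ_apply', ← ih]; rfl
    exact this k
  rw [← h2, h1]

lemma mem_face_self (R : Rotation G) (d : V × V) : d ∈ R.face d := ⟨0, rfl⟩

lemma face_step [Finite V] (R : Rotation G) {d : V × V} (hd : d ∈ darts G) :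
    R.face (R.faceStep d) = R.face d := by
  ext e
  constructor
  · rintro ⟨k, rfl⟩
    exact ⟨k + 1, rfl⟩
  · rintro ⟨k, rfl⟩
    obtain ⟨p, hp, hp'⟩ := R.exists_return hd
    refine ⟨k + (p - 1), ?_⟩
    rw [← iterate_succ_apply, show (k + (p - 1)).succ = k + p by omega, iterate_add_apply, hp']

lemma face_iterate [Finite V] (R : Rotation G) {d : V × V} (hd : d ∈ darts G) (k : ℕ) :
    R.face (R.faceStep^[k] d) = R.face d := by
  induction k with
  | zero => rfl
  | succ k ih => rw [iterate_succ_apply', R.face_step (R.iterate_mem hd k), ih]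

lemma face_eq_iff [Finite V] (R : Rotation G) {d e : V × V} (hd : d ∈ darts G)  :
    R.face e = R.face d ↔ e ∈ R.face d := by
  constructor
  · intro h
    rw [← h]; exact R.mem_face_self e
  · rintro ⟨k, rfl⟩
    exact R.face_iterate hd k

lemma ncard_darts [Finite V] (G : SimpleGraph V) : (darts G).ncard = 2 * G.edgeSet.ncard := by
  classical
  have := Fintype.ofFinite V
  have h1 := G.dart_card_eq_twice_card_edges
  have h2 : Fintype.card G.Dart = (darts G).ncard := by
    rw [← Nat.card_coe_set_eq, ← Nat.card_eq_fintype_card]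
    refine Nat.card_congr ⟨fun d => ⟨d.toProd, d.adj⟩, fun d => ⟨d.1, d.2⟩, fun d => rfl,
      fun d => rfl⟩
  have h3 : G.edgeFinset.card = G.edgeSet.ncard := by
    rw [← SimpleGraph.coe_edgeFinset, Set.ncard_coe_finset]
  rw [← h2, h1, h3]

/-- If each face has at least three darts, then `3 F ≤ 2 E`. -/
lemma three_faces_le [Finite V] (R : Rotation G)
    (h3 : ∀ d ∈ darts G, 3 ≤ ({e | e ∈ darts G ∧ R.face e = R.face d} : Set (V × V)).ncard) :
    3 * R.faces.ncard ≤ 2 * G.edgeSet.ncard := by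
  classical
  have := Fintype.ofFinite V
  rw [← ncard_darts]
  have hfin : (darts G).Finite := Set.toFinite _
  have e1 : R.faces = ((hfin.toFinset.image R.face : Finset (Set (V × V))) : Set (Set (V × V))) := by
    ext F
    simp only [Finset.coe_image, Set.Finite.coe_toFinset, Set.mem_image, faces]
    constructor
    · rintro ⟨u, v, h, rfl⟩
      exact ⟨(u, v), h, rfl⟩
    · rintro ⟨⟨u, v⟩, h, rfl⟩
      exact ⟨u, v, h, rfl⟩
  rw [e1, Set.ncard_coe_finset, Set.ncard_eq_toFinset_card _ hfin]
  apply Finset.mul_card_image_le_card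
  intro F hF
  rw [Finset.mem_image] at hF
  obtain ⟨d, hd, rfl⟩ := hF
  rw [Set.Finite.mem_toFinset] at hd
  have := h3 d hd
  convert this
  rw [← Set.ncard_coe_finset]
  congr 1
  ext e
  simp

/-- If each face has exactly three darts, then `3 F = 2 E`. -/
lemma three_faces_eq [Finite V] (R : Rotation G)
    (h3 : ∀ d ∈ darts G, ({e | e ∈ darts G ∧ R.face e = R.face d} : Set (V × V)).ncard = 3) :
    3 * R.faces.ncard = 2 * G.edgeSet.ncard := by
  classical
  have := Fintype.ofFinite V
  rw [← ncard_darts]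
  have hfin : (darts G).Finite := Set.toFinite _
  have e1 : R.faces = ((hfin.toFinset.image R.face : Finset (Set (V × V))) : Set (Set (V × V))) := by
    ext F
    simp only [Finset.coe_image, Set.Finite.coe_toFinset, Set.mem_image, faces]
    constructor
    · rintro ⟨u, v, h, rfl⟩
      exact ⟨(u, v), h, rfl⟩
    · rintro ⟨⟨u, v⟩, h, rfl⟩
      exact ⟨u, v, h, rfl⟩
  rw [e1, Set.ncard_coe_finset, Set.ncard_eq_toFinset_card _ hfin]
  rw [Finset.card_eq_sum_card_image R.face hfin.toFinset]
  rw [Finset.sum_const_nat (m := 3), mul_comm]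
  intro F hF
  rw [Finset.mem_image] at hF
  obtain ⟨d, hd, rfl⟩ := hF
  rw [Set.Finite.mem_toFinset] at hd
  have := h3 d hd
  rw [← this, ← Set.ncard_coe_finset]
  congr 1
  ext e
  simp

end Rotation

end Pool.Agent.H18Thick
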