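import Pool.Agent.H18Thick.Bound

set_option autoImplicit false

/-!
The planar triangulation `T`: the cuboctahedron whose six square faces are filled by paths.
Vertices: `(Y, s, k)` with `Y : Fin 3`, `s : Bool`, `0 ≤ k ≤ N`.
-/

namespace Pool.Agent.H18Thick

open Function

/-- vertex type -/
abbrev W (N : ℕ) := Fin 3 × Bool × Fin (N + 1)

variable {N : ℕ}

/-- `v` is a hub (an end of its path) and `w` lies on the path it dominates. -/
def HubT (v w : W N) : Prop :=
  w.1 = v.1 - 1 ∧ ((v.2.2.val = 0 ∧ w.2.1 = v.2.1) ∨ (v.2.2.val = N ∧ w.2.1 = !v.2.1))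

def PathT (v w : W N) : Prop :=
  w.1 = v.1 ∧ w.2.1 = v.2.1 ∧ (w.2.2.val = v.2.2.val + 1 ∨ v.2.2.val = w.2.2.val + 1)

lemma f1 : ∀ Y : Fin 3, Y + 1 ≠ Y := by decide
lemma f2 : ∀ Y : Fin 3, Y - 1 ≠ Y := by decide
lemma f3 : ∀ Y : Fin 3, Y - 1 ≠ Y + 1 := by decide
lemma f4 : ∀ Y : Fin 3, Y + 1 + 1 = Y - 1 := by decide
lemma f5 : ∀ Y : Fin 3, Y - 1 - 1 = Y + 1 := by decide
lemma f6 : ∀ Y : Fin 3, Y + 1 - 1 = Y := by decide
lemma f7 : ∀ Y : Fin 3, Y - 1 + 1 = Y := by decide
lemma f8 : ∀ Y Y' : Fin 3, Y' = Y - 1 ↔ Y = Y' + 1 := by decide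

/-- The triangulation. -/
def TG (N : ℕ) : SimpleGraph (W N) where
  Adj v w := PathT v w ∨ HubT v w ∨ HubT w v
  symm := ⟨by
    rintro v w (h | h | h)
    · left; exact ⟨h.1.symm, h.2.1.symm, h.2.2.symm⟩
    · right; right; exact h
    · right; left; exact h⟩
  loopless := ⟨by
    rintro v (h | h | h)
    · have := h.2.2; omega
    · exact f2 _ h.1.symm
    · exact f2 _ h.1.symm⟩

def fsucc (k : Fin (N + 1)) : Fin (N + 1) := ⟨min (k.val + 1) N, by omega⟩
def fpred (k : Fin (N + 1)) : Fin (N + 1) := ⟨k.val - 1, by omega⟩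
def fzero : Fin (N + 1) := ⟨0, by omega⟩
def flast : Fin (N + 1) := ⟨N, by omega⟩

@[simp] lemma fsucc_val (k : Fin (N + 1)) : (fsucc k).val = min (k.val + 1) N := rfl
@[simp] lemma fpred_val (k : Fin (N + 1)) : (fpred k).val = k.val - 1 := rfl
@[simp] lemma fzero_val : (fzero : Fin (N + 1)).val = 0 := rfl
@[simp] lemma flast_val : (flast : Fin (N + 1)).val = N := rfl

/-- the two hubs of the path through `v` -/
def hub (v : W N) (u : Bool) : W N := (v.1 + 1, u, if u = v.2.1 then fzero else flast)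

def tgt (v : W N) : Bool := if v.2.2.val = 0 then v.2.1 else !v.2.1

def firstT (v : W N) : W N := (v.1 - 1, tgt v, if v.2.1 = false then fzero else flast)

/-- the rotation -/
def rot (v w : W N) : W N :=
  if w.1 = v.1 then (if w.2.2.val = v.2.2.val + 1 then hub v false else hub v true)
  else if w.1 = v.1 + 1 then
    (if w.2.1 = false then (if 0 < v.2.2.val then (v.1, v.2.1, fpred v.2.2) else firstT v)
     else (if v.2.2.val < N then (v.1, v.2.1, fsucc v.2.2) else firstT v))
  else if v.2.1 = false then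
    (if w.2.2.val < N then (w.1, w.2.1, fsucc w.2.2)
     else if v.2.2.val = 0 then hub v true else hub v false)
  else (if 0 < w.2.2.val then (w.1, w.2.1, fpred w.2.2)
     else if v.2.2.val = 0 then hub v true else hub v false)

lemma tg_adj (v w : W N) : (TG N).Adj v w ↔ PathT v w ∨ HubT v w ∨ HubT w v := Iff.rfl

/-- description of the neighbours -/
lemma adj_cases (hN : 1 ≤ N) {v w : W N} (h : (TG N).Adj v w) :
    (v.2.2.val < N ∧ w = (v.1, v.2.1, fsucc v.2.2)) ∨
    (0 < v.2.2.val ∧ w = (v.1, v.2.1, fpred v.2.2)) ∨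
    (w = hub v false) ∨ (w = hub v true) ∨
    ((v.2.2.val = 0 ∨ v.2.2.val = N) ∧ ∃ k, w = (v.1 - 1, tgt v, k)) := by
  obtain ⟨Y, s, k⟩ := v
  obtain ⟨Y', s', k'⟩ := w
  have hk := k.2
  have hk' := k'.2
  rcases h with h | h | h
  · obtain ⟨h1, h2, h3⟩ := h
    dsimp only at h1 h2 h3
    subst h1 h2
    rcases h3 with h3 | h3
    · left
      refine ⟨by dsimp only; omega, ?_⟩
      simp only [Prod.mk.injEq, true_and]
      ext; simp; omega
    · right; left
      refine ⟨by dsimp only; omega, ?_⟩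
      simp only [Prod.mk.injEq, true_and]
      ext; simp; omega
  · obtain ⟨h1, h2⟩ := h
    dsimp only at h1 h2
    subst h1
    right; right; right; right
    rcases h2 with ⟨h2, rfl⟩ | ⟨h2, rfl⟩
    · refine ⟨Or.inl h2, k', ?_⟩
      simp [tgt, h2]
    · refine ⟨Or.inr h2, k', ?_⟩
      have : k.val ≠ 0 := by omega
      simp [tgt, this]
  · obtain ⟨h1, h2⟩ := h
    dsimp only at h1 h2
    rw [f8] at h1
    subst h1
    rcases h2 with ⟨h2, rfl⟩ | ⟨h2, rfl⟩
    · have e : k' = fzero := by ext; simpa using h2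
      subst e
      cases s
      · right; right; left; simp [hub]
      · right; right; right; left; simp [hub]
    · have e : k' = flast := by ext; simpa using h2
      subst e
      cases s'
      · right; right; left; simp [hub]
      · right; right; right; left; simp [hub]

lemma adj_next {v : W N} (h : v.2.2.val < N) : (TG N).Adj v (v.1, v.2.1, fsucc v.2.2) := by
  left; exact ⟨rfl, rfl, Or.inl (by simp; omega)⟩

lemma adj_prev {v : W N} (h : 0 < v.2.2.val) : (TG N).Adj v (v.1, v.2.1, fpred v.2.2) := by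
  left; exact ⟨rfl, rfl, Or.inr (by simp; omega)⟩

lemma adj_hub (v : W N) (u : Bool) : (TG N).Adj v (hub v u) := by
  right; right
  obtain ⟨Y, s, k⟩ := v
  refine ⟨by simp [hub], ?_⟩
  cases u <;> cases s <;> simp [hub]

lemma adj_tgt (hN : 1 ≤ N) {v : W N} (h : v.2.2.val = 0 ∨ v.2.2.val = N) (k : Fin (N + 1)) :
    (TG N).Adj v (v.1 - 1, tgt v, k) := by
  right; left
  refine ⟨rfl, ?_⟩
  rcases h with h | h
  · left; exact ⟨h, by simp [tgt, h]⟩
  · right
    have : v.2.2.val ≠ 0 := by omega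
    exact ⟨h, by simp [tgt, this]⟩

/-! values of the rotation -/

lemma rot_next {v : W N} (h : v.2.2.val < N) : rot v (v.1, v.2.1, fsucc v.2.2) = hub v false := by
  have : (fsucc v.2.2).val = v.2.2.val + 1 := by simp; omega
  simp [rot]; omega

lemma rot_prev {v : W N} (h : 0 < v.2.2.val) : rot v (v.1, v.2.1, fpred v.2.2) = hub v true := by
  have : ¬ (v.2.2.val - 1 = v.2.2.val + 1) := by omega
  simp [rot, this]

lemma rot_hub_false (v : W N) : rot v (hub v false) =
    if 0 < v.2.2.val then (v.1, v.2.1, fpred v.2.2) else firstT v := by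
  simp [rot, hub]

lemma rot_hub_true (v : W N) : rot v (hub v true) =
    if v.2.2.val < N then (v.1, v.2.1, fsucc v.2.2) else firstT v := by
  simp [rot, hub]

lemma rot_tgt_false {v : W N} (hv : v.2.1 = false) (k : Fin (N + 1)) (b : Bool) :
    rot v (v.1 - 1, b, k) = if k.val < N then (v.1 - 1, b, fsucc k)
      else if v.2.2.val = 0 then hub v true else hub v false := by
  simp [rot, f3, hv]

lemma rot_tgt_true {v : W N} (hv : v.2.1 = true) (k : Fin (N + 1)) (b : Bool) :
    rot v (v.1 - 1, b, k) = if 0 < k.val then (v.1 - 1, b, fpred k)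
      else if v.2.2.val = 0 then hub v true else hub v false := by
  simp [rot, f3, hv]

end Pool.Agent.H18Thick
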