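import Pool.Agent.H18Thick.Tube

set_option autoImplicit false

namespace Pool.Agent.H18Thick

open Function

variable {N : ℕ}

lemma rot_same {v x : W N} (h : x.1 = v.1) :
    rot v x = if x.2.2.val = v.2.2.val + 1 then hub v false else hub v true := by
  simp [rot, h]

lemma rot_up {v x : W N} (h : x.1 = v.1 + 1) :
    rot v x = if x.2.1 = false then
      (if 0 < v.2.2.val then (v.1, v.2.1, fpred v.2.2) else firstT v)
     else (if v.2.2.val < N then (v.1, v.2.1, fsucc v.2.2) else firstT v) := by
  simp [rot, h]

lemma rot_dn {v x : W N} (h : x.1 = v.1 - 1) :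
    rot v x = if v.2.1 = false then
      (if x.2.2.val < N then (x.1, x.2.1, fsucc x.2.2)
       else if v.2.2.val = 0 then hub v true else hub v false)
      else (if 0 < x.2.2.val then (x.1, x.2.1, fpred x.2.2)
       else if v.2.2.val = 0 then hub v true else hub v false) := by
  simp [rot, h, f3, f2]

lemma rot_adj (hN : 1 ≤ N) (v w : W N) (h : (TG N).Adj v w) : (TG N).Adj v (rot v w) := by
  have hk := v.2.2.2
  rcases adj_cases hN h with ⟨h1, rfl⟩ | ⟨h1, rfl⟩ | rfl | rfl | ⟨h1, k, rfl⟩
  · rw [rot_next h1]; exact adj_hub v _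
  · rw [rot_prev h1]; exact adj_hub v _
  · rw [rot_hub_false]
    split_ifs with h2
    · exact adj_prev h2
    · exact adj_tgt hN (by omega) _
  · rw [rot_hub_true]
    split_ifs with h2
    · exact adj_next h2
    · exact adj_tgt hN (by omega) _
  · cases hs : v.2.1
    · rw [rot_tgt_false hs]
      split_ifs with h2 h3
      · exact adj_tgt hN h1 _
      · exact adj_hub v _
      · exact adj_hub v _
    · rw [rot_tgt_true hs]
      split_ifs with h2 h3
      · exact adj_tgt hN h1 _
      · exact adj_hub v _
      · exact adj_hub v _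

lemma f9 (Y : Fin 3) : Y = Y + 1 - 1 := (f6 Y).symm
lemma f10 (Y : Fin 3) : Y = Y - 1 + 1 := (f7 Y).symm

/-- `v` as a hub of the path it dominates -/
lemma rot_tri (hN : 1 ≤ N) (u v : W N) (h : (TG N).Adj u v) : rot (rot v u) v = u := by
  obtain ⟨Y, s, k⟩ := v
  obtain ⟨k, hk⟩ := k
  rcases adj_cases hN h.symm with ⟨h1, rfl⟩ | ⟨h1, rfl⟩ | rfl | rfl | ⟨h1, k', rfl⟩
  · -- u = next
    rw [rot_next h1]
    dsimp only at h1
    rw [rot_dn (by simp [hub])]
    simp [hub, h1]
  · rw [rot_prev h1]
    dsimp only at h1
    rw [rot_dn (by simp [hub])]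
    simp [hub, h1]
  · -- u = h0
    rw [rot_hub_false]
    dsimp only
    split_ifs with h2
    · rw [rot_same (v := (Y, s, fpred ⟨k, hk⟩)) (x := (Y, s, ⟨k, hk⟩)) rfl,
        if_pos (by simp; omega)]
      simp [hub]
    · have hk0 : k = 0 := by omega
      subst hk0
      rw [rot_up (by simp [firstT, f7])]
      cases s
      · simp [firstT, hub, tgt, f5]
      · simp [firstT, hub, tgt, f5, fzero, flast, Fin.ext_iff]
        omega
  · rw [rot_hub_true]
    dsimp only
    split_ifs with h2
    · rw [rot_same (v := (Y, s, fsucc ⟨k, hk⟩)) (x := (Y, s, ⟨k, hk⟩)) rfl,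
        if_neg (by simp; omega)]
      simp [hub]
    · have hk0 : k = N := by omega
      subst hk0
      rw [rot_up (by simp [firstT, f7])]
      have hN0 : k ≠ 0 := by omega
      cases s
      · simp [firstT, hub, tgt, f5, hN0]
      · simp [firstT, hub, tgt, f5, hN0]
  · obtain ⟨k', hk'⟩ := k'
    dsimp only at h1
    cases s
    · rw [rot_tgt_false rfl]
      dsimp only
      split_ifs with h2 h3
      · rw [rot_up (by simp), if_pos rfl, if_pos (by simp; omega)]
        simp only [Prod.mk.injEq, true_and]
        ext; simp; omega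
      · subst h3
        rw [rot_dn (by simp [hub])]
        have e : k' = N := by omega
        subst e
        have hN0 : k' ≠ 0 := by omega
        simp [hub, tgt, f4, hN0, flast]
      · have hkN : k = N := by omega
        have e : k' = N := by omega
        subst hkN
        subst e
        rw [rot_dn (by simp [hub])]
        simp [hub, tgt, f4, flast, h3]
    · rw [rot_tgt_true rfl]
      dsimp only
      split_ifs with h2 h3
      · rw [rot_up (by simp), if_neg (by simp), if_pos (by simp; omega)]
        simp only [Prod.mk.injEq, true_and]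
        ext; simp; omega
      · subst h3
        rw [rot_dn (by simp [hub])]
        have e : k' = 0 := by omega
        subst e
        simp [hub, tgt, f4, fzero]
      · have hkN : k = N := by omega
        have e : k' = 0 := by omega
        subst hkN
        subst e
        rw [rot_dn (by simp [hub])]
        simp [hub, tgt, f4, fzero, h3]

/-- reachability under iteration of the rotation at `v` -/
def Rch (v a b : W N) : Prop := ∃ k : ℕ, (rot v)^[k] a = b

lemma Rch.refl (v a : W N) : Rch v a a := ⟨0, rfl⟩

lemma Rch.trans {v a b c : W N} (h : Rch v a b) (h' : Rch v b c) : Rch v a c := by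
  obtain ⟨k, rfl⟩ := h
  obtain ⟨l, rfl⟩ := h'
  exact ⟨l + k, iterate_add_apply _ _ _ _⟩

lemma Rch.step {v a b : W N} (h : rot v a = b) : Rch v a b := ⟨1, h⟩

lemma chain_rch {v : W N} {c : ℕ → W N} {M : ℕ} (h : ∀ k < M, rot v (c k) = c (k + 1))
    {i j : ℕ} (hij : i ≤ j) (hj : j ≤ M) : Rch v (c i) (c j) := by
  induction j, hij using Nat.le_induction with
  | base => exact Rch.refl _ _
  | succ j hij ih => exact (ih (by omega)).trans (Rch.step (h j (by omega)))

/-- the chain of the targets of the hub `v` -/
lemma targets (hN : 1 ≤ N) (v : W N) (w : W N) (hw : ∃ k, w = (v.1 - 1, tgt v, k)) :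
    Rch v (firstT v) w ∧ Rch v w (if v.2.2.val = 0 then hub v true else hub v false) := by
  obtain ⟨⟨k, hk⟩, rfl⟩ := hw
  cases hs : v.2.1
  · let c : ℕ → W N := fun i => (v.1 - 1, tgt v, ⟨min i N, by omega⟩)
    have hc : ∀ i < N, rot v (c i) = c (i + 1) := by
      intro i hi
      simp only [c]
      rw [rot_tgt_false hs, if_pos (by simp only; omega)]
      simp only [Prod.mk.injEq, true_and]
      ext; simp; omega
    have e0 : firstT v = c 0 := by
      simp [c, firstT, hs, fzero]
    have ek : ((v.1 - 1, tgt v, ⟨k, hk⟩) : W N) = c k := by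
      simp only [c, Prod.mk.injEq, true_and]
      ext; simp; omega
    rw [e0, ek]
    refine ⟨chain_rch hc (by omega) (by omega), ?_⟩
    refine (chain_rch hc (i := k) (j := N) (by omega) le_rfl).trans (Rch.step ?_)
    simp only [c]
    rw [rot_tgt_false hs, if_neg (by simp)]
  · let c : ℕ → W N := fun i => (v.1 - 1, tgt v, ⟨N - i, by omega⟩)
    have hc : ∀ i < N, rot v (c i) = c (i + 1) := by
      intro i hi
      simp only [c]
      rw [rot_tgt_true hs, if_pos (by simp only; omega)]
      simp only [Prod.mk.injEq, true_and]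
      ext; simp; omega
    have e0 : firstT v = c 0 := by
      simp [c, firstT, hs, flast]
    have ek : ((v.1 - 1, tgt v, ⟨k, hk⟩) : W N) = c (N - k) := by
      simp only [c, Prod.mk.injEq, true_and]
      ext; simp; omega
    rw [e0, ek]
    refine ⟨chain_rch hc (by omega) (by omega), ?_⟩
    refine (chain_rch hc (i := N - k) (j := N) (by omega) le_rfl).trans (Rch.step ?_)
    simp only [c]
    rw [rot_tgt_true hs, if_neg (by simp)]

lemma rch_last (hN : 1 ≤ N) (v : W N) :
    Rch v (firstT v) (if v.2.2.val = 0 then hub v true else hub v false) :=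
  (targets hN v (firstT v) ⟨_, rfl⟩).2

lemma rch_true_false (hN : 1 ≤ N) (v : W N) : Rch v (hub v true) (hub v false) := by
  have hk := v.2.2.2
  by_cases h : v.2.2.val < N
  · refine (Rch.step ?_ : Rch v _ (v.1, v.2.1, fsucc v.2.2)).trans (Rch.step (rot_next h))
    rw [rot_hub_true, if_pos h]
  · refine (Rch.step ?_ : Rch v _ (firstT v)).trans ?_
    · rw [rot_hub_true, if_neg h]
    · have := rch_last hN v
      rwa [if_neg (by omega)] at this

lemma rch_false_true (hN : 1 ≤ N) (v : W N) : Rch v (hub v false) (hub v true) := by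
  have hk := v.2.2.2
  by_cases h : 0 < v.2.2.val
  · refine (Rch.step ?_ : Rch v _ (v.1, v.2.1, fpred v.2.2)).trans (Rch.step (rot_prev h))
    rw [rot_hub_false, if_pos h]
  · refine (Rch.step ?_ : Rch v _ (firstT v)).trans ?_
    · rw [rot_hub_false, if_neg h]
    · have := rch_last hN v
      rwa [if_pos (by omega)] at this

lemma to_base (hN : 1 ≤ N) {v w : W N} (h : (TG N).Adj v w) : Rch v w (hub v false) := by
  rcases adj_cases hN h with ⟨h1, rfl⟩ | ⟨h1, rfl⟩ | rfl | rfl | ⟨h1, k, rfl⟩
  · exact Rch.step (rot_next h1)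
  · exact (Rch.step (rot_prev h1)).trans (rch_true_false hN v)
  · exact Rch.refl _ _
  · exact rch_true_false hN v
  · refine (targets hN v _ ⟨k, rfl⟩).2.trans ?_
    split_ifs
    · exact rch_true_false hN v
    · exact Rch.refl _ _

lemma from_base (hN : 1 ≤ N) {v w : W N} (h : (TG N).Adj v w) : Rch v (hub v false) w := by
  rcases adj_cases hN h with ⟨h1, rfl⟩ | ⟨h1, rfl⟩ | rfl | rfl | ⟨h1, k, rfl⟩
  · refine (rch_false_true hN v).trans (Rch.step ?_)
    rw [rot_hub_true, if_pos h1]
  · refine Rch.step ?_
    rw [rot_hub_false, if_pos h1]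
  · exact Rch.refl _ _
  · exact rch_false_true hN v
  · refine Rch.trans (b := firstT v) ?_ (targets hN v _ ⟨k, rfl⟩).1
    rcases h1 with h1 | h1
    · refine Rch.step ?_
      rw [rot_hub_false, if_neg (by omega)]
    · refine (rch_false_true hN v).trans (Rch.step ?_)
      rw [rot_hub_true, if_neg (by omega)]

/-- `TG N` has a triangulated rotation system. -/
theorem triRot_TG (hN : 1 ≤ N) : TriRot (TG N) := by
  refine ⟨⟨rot, rot_adj hN, ?_⟩, rot_tri hN⟩
  intro v w w' h h'
  exact (to_base hN h).trans (from_base hN h')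

lemma reach_zero (v : W N) : (TG N).Reachable v (v.1, v.2.1, fzero) := by
  obtain ⟨Y, s, ⟨k, hk⟩⟩ := v
  induction k with
  | zero => exact SimpleGraph.Reachable.refl _
  | succ k ih =>
    refine SimpleGraph.Reachable.trans (SimpleGraph.Adj.reachable ?_) (ih (by omega))
    left
    exact ⟨rfl, rfl, Or.inr rfl⟩

lemma reach_path (Y : Fin 3) (s : Bool) (k k' : Fin (N + 1)) :
    (TG N).Reachable (Y, s, k) (Y, s, k') :=
  (reach_zero (Y, s, k)).trans (reach_zero (Y, s, k')).symm

/-- one step down with the same side -/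
lemma reach_dn (Y : Fin 3) (s : Bool) (k k' : Fin (N + 1)) :
    (TG N).Reachable (Y, s, k) (Y - 1, s, k') := by
  refine (reach_path Y s k fzero).trans (SimpleGraph.Adj.reachable ?_)
  right; left
  exact ⟨rfl, Or.inl ⟨rfl, rfl⟩⟩

lemma reach_dn' (Y : Fin 3) (s : Bool) (k k' : Fin (N + 1)) :
    (TG N).Reachable (Y, s, k) (Y - 1, !s, k') := by
  refine (reach_path Y s k flast).trans (SimpleGraph.Adj.reachable ?_)
  right; left
  exact ⟨rfl, Or.inr ⟨rfl, rfl⟩⟩

theorem connected_TG : (TG N).Connected := by
  have key : ∀ v : W N, (TG N).Reachable v (0, false, fzero) := by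
    rintro ⟨Y, s, k⟩
    have h1 : ∀ s, (TG N).Reachable (0, s, k) (0, false, fzero) := by
      intro s
      cases s
      · exact reach_path _ _ _ _
      · have a := reach_dn (N := N) 0 true k fzero
        have b := reach_dn (N := N) (0 - 1) true fzero fzero
        have c := reach_dn' (N := N) (0 - 1 - 1) true fzero fzero
        have e : (0 - 1 - 1 - 1 : Fin 3) = 0 := by decide
        rw [e] at c
        exact (a.trans b).trans c
    have h2 : ∀ s, (TG N).Reachable (1, s, k) (0, false, fzero) := by
      intro s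
      have a := reach_dn (N := N) 1 s k k
      have e : (1 - 1 : Fin 3) = 0 := by decide
      rw [e] at a
      exact a.trans (h1 s)
    have h3 : ∀ s, (TG N).Reachable (2, s, k) (0, false, fzero) := by
      intro s
      have a := reach_dn (N := N) 2 s k k
      have e : (2 - 1 : Fin 3) = 1 := by decide
      rw [e] at a
      exact a.trans (h2 s)
    have : Y = 0 ∨ Y = 1 ∨ Y = 2 := by
      revert Y; decide
    rcases this with rfl | rfl | rfl
    · exact h1 s
    · exact h2 s
    · exact h3 s
  have : Nonempty (W N) := ⟨(0, false, fzero)⟩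
  exact SimpleGraph.Connected.mk (fun v w => (key v).trans (key w).symm)

end Pool.Agent.H18Thick
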